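import Pool.Agent.Results.MP_5317dd_nt.SharpPowerSaving
import Pool.Agent.Y854.GM.WinV
import Pool.Agent.H107.MetricFam
import Pool.Agent.H107.Dyad

/-!
# Wiggin's maps: ALL integers in windows descend by a power

Let `D ≥ 2` and let `h(D)` be the `D`-ary entropy of `log D / log (D + 1)`, in base `D`.

**Theorem.** There is `c > 0`, `c > 1 - h(D)`, such that for all `δ ≥ 0` with `c δ ≤ 1`:

1. Let `v_m ≥ 1` be a sequence with exponent of convergence at most `τ` (`0` for `b ^ m`, `1 / a` for `(m + 1) ^ a`) and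
`θ < 1`. For all `α > 0` outside of a set of Hausdorff dimension at most `(1 - c δ + τ) / (1 - θ)` and all large `m`, ALL
natural numbers `n` with `|n - α v_m| ≤ v_m ^ θ` have an iterate `F_D^(k)(n) ≤ v_m ^ δ`. If `τ = 0` and `θ < c δ`, this holds
for almost all `α`: for example with `δ = 1 / 2` all the integers in the windows of length `v_m ^ θ` have an iterate at most
`v_m ^ (1 / 2)`.

2. For every map `φ` of the natural numbers to a metric space (for example the `p`-adic integers) and `σ > 0`, for all `z`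
outside of a set of Hausdorff dimension at most `(1 - c δ) / σ` all but finitely many `n ≥ 1` with `dist (φ n) z ≤ n ^ (-σ)` have
an iterate `F_D^(k)(n) ≤ n ^ δ`.

The proof combines the starting result `SharpPowerSaving` (at most `C X / y ^ c` of the `n ≤ X` have no iterate `≤ y`) with
coverings.
-/

set_option autoImplicit false

namespace Pool.Agent.Results.MP_5317dd_nt.AllIntegersInWindows

open Pool.Agent.Results.MP_5317dd_nt.SharpPowerSaving (F)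

/-- the exponent of convergence of the sequence `v` is at most `τ` -/
def ExpLe (v : ℕ → ℝ) (τ : ℝ) : Prop := ∀ t : ℝ, τ < t → Summable (fun m : ℕ => (v m) ^ (-t))

/-- the `D`-ary entropy of `log D / log (D + 1)`, in base `D` -/
noncomputable def h (D : ℕ) : ℝ := Real.qaryEntropy D (Real.log D / Real.log (D + 1)) / Real.log D

theorem F_zero (D : ℕ) : F D 0 = 0 := by simp [F]

/-- **Theorem.** -/
theorem result (D : ℕ) (hD : 2 ≤ D) : ∃ c : ℝ, 0 < c ∧ 1 - h D < c ∧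
    (∀ δ : ℝ, 0 ≤ δ → c * δ ≤ 1 → ∀ (v : ℕ → ℝ) (τ θ : ℝ), (∀ m, 1 ≤ v m) → 0 ≤ τ → ExpLe v τ → θ < 1 →
      ∃ E : Set ℝ, dimH E ≤ ENNReal.ofReal ((1 - c * δ + τ) / (1 - θ)) ∧ ∀ α : ℝ, 0 < α → α ∉ E →
        ∃ m₀ : ℕ, ∀ m : ℕ, m₀ ≤ m → ∀ n : ℕ, |(n : ℝ) - α * v m| ≤ (v m) ^ θ →
          ∃ k : ℕ, (((F D)^[k] n : ℕ) : ℝ) ≤ (v m) ^ δ) ∧
    (∀ δ : ℝ, 0 ≤ δ → c * δ ≤ 1 → ∀ (M : Type) [MetricSpace M] (φ : ℕ → M) (σ : ℝ), 0 < σ →
      ∃ E : Set M, dimH E ≤ ENNReal.ofReal ((1 - c * δ) / σ) ∧ ∀ z ∉ E,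
        {n : ℕ | 1 ≤ n ∧ dist (φ n) z ≤ (n : ℝ) ^ (-σ) ∧ ∀ k : ℕ, (n : ℝ) ^ δ < (((F D)^[k] n : ℕ) : ℝ)}.Finite) ∧
    (∀ a : ℝ, 0 < a → ExpLe (fun m : ℕ => ((m : ℝ) + 1) ^ a) (1 / a)) ∧
    (∀ b : ℝ, 1 < b → ExpLe (fun m : ℕ => b ^ m) 0) := by
  classical
  obtain ⟨c, hc, hcH, C, hC, hcount⟩ := Pool.Agent.Results.MP_5317dd_nt.SharpPowerSaving.result D hD
  refine ⟨c, hc, hcH, ?_, ?_, fun κ hκ => Pool.Agent.Y854.GM.expLe_pow κ hκ,
    fun b hb => Pool.Agent.Y854.GM.expLe_geom b hb⟩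
  · intro δ hδ hcδ v τ θ hv hτ hvτ hθ
    have hs : 0 ≤ 1 - c * δ := by linarith
    obtain ⟨E, h1, h2⟩ := Pool.Agent.Y854.GM.windowsV (T := ℕ)
      (fun m => {n : ℕ | 1 ≤ n ∧ ∀ k : ℕ, (v m) ^ δ < (((F D)^[k] n : ℕ) : ℝ)}) (fun _ n => (n : ℝ)) (v := v)
      (s := 1 - c * δ) (τ := τ) (θ := θ) 1 hv hτ hvτ hs hθ (by
        intro A ε hε
        refine ⟨C * ((A : ℝ) + 1), 0, fun m _ => ?_⟩
        have hvm := hv m
        have hA : (0 : ℝ) ≤ A := Nat.cast_nonneg _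
        have hX : 1 ≤ ((A : ℝ) + 1) * v m := by nlinarith
        have hy : 1 ≤ (v m) ^ δ := Real.one_le_rpow hvm hδ
        have h3 := hcount _ _ hX hy
        have heq : {n : ℕ | n ∈ {n : ℕ | 1 ≤ n ∧ ∀ k : ℕ, (v m) ^ δ < (((F D)^[k] n : ℕ) : ℝ)} ∧
            (n : ℝ) ≤ ((A : ℝ) + 1) * v m} = {n : ℕ | 1 ≤ n ∧ (n : ℝ) ≤ ((A : ℝ) + 1) * v m ∧
            ∀ k : ℕ, (v m) ^ δ < (((F D)^[k] n : ℕ) : ℝ)} := by
          ext n
          simp only [Set.mem_ofPred_eq]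
          tauto
        refine ⟨(Pool.Agent.H107.Dyad.finite_le _ _), ?_⟩
        rw [heq]
        refine h3.trans ?_
        have hv0 : 0 < v m := by linarith
        have e1 : ((v m) ^ δ) ^ c = (v m) ^ (δ * c) := by rw [← Real.rpow_mul hv0.le]
        have e2 : (v m) / (v m) ^ (δ * c) = (v m) ^ (1 - δ * c) := by
          rw [Real.rpow_sub hv0, Real.rpow_one]
        calc C * (((A : ℝ) + 1) * v m) / ((v m) ^ δ) ^ c = C * ((A : ℝ) + 1) * ((v m) / (v m) ^ (δ * c)) := by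
              rw [e1]
              ring
          _ = C * ((A : ℝ) + 1) * (v m) ^ (1 - δ * c) := by rw [e2]
          _ ≤ C * ((A : ℝ) + 1) * (v m) ^ (1 - c * δ + ε) :=
              mul_le_mul_of_nonneg_left (Real.rpow_le_rpow_of_exponent_le hvm (by linarith)) (by positivity))
    refine ⟨E, h1, fun α hα hαE => ?_⟩
    obtain ⟨m₀, hm₀⟩ := h2 α hα hαE
    refine ⟨m₀, fun m hm n hn => ?_⟩
    by_contra hcon
    push Not at hcon
    have hn1 : 1 ≤ n := by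
      rcases Nat.eq_zero_or_pos n with h0 | h0
      · have h4 := hcon 0
        rw [h0] at h4
        simp only [Function.iterate_zero, id_eq, Nat.cast_zero] at h4
        have h5 : (0 : ℝ) ≤ (v m) ^ δ := Real.rpow_nonneg (by linarith [hv m]) _
        linarith
      · exact h0
    have h3 := hm₀ m hm n ⟨hn1, hcon⟩
    rw [one_mul] at h3
    exact absurd hn (not_le.2 h3)
  · intro δ hδ hcδ M _ φ σ hσ
    have hs : 0 ≤ 1 - c * δ := by linarith
    have hdy := Pool.Agent.H107.Dyad.count_of_dyadic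
      (S := {n : ℕ | 1 ≤ n ∧ ∀ k : ℕ, (n : ℝ) ^ δ < (((F D)^[k] n : ℕ) : ℝ)}) hs (by
        intro ε hε
        refine ⟨2 * C, 1, fun Y hY G hG => ?_⟩
        have hY0 : 0 < Y := by linarith
        have hy : 1 ≤ Y ^ δ := Real.one_le_rpow hY hδ
        have h3 := hcount (2 * Y) (Y ^ δ) (by linarith) hy
        have hfin : {n : ℕ | 1 ≤ n ∧ (n : ℝ) ≤ 2 * Y ∧ ∀ k : ℕ, Y ^ δ < (((F D)^[k] n : ℕ) : ℝ)}.Finite := by
          refine (Pool.Agent.H107.Dyad.finite_le Set.univ (2 * Y)).subset ?_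
          rintro n ⟨_, hn, _⟩
          exact ⟨trivial, hn⟩
        have hsub : (G : Set ℕ) ⊆ {n : ℕ | 1 ≤ n ∧ (n : ℝ) ≤ 2 * Y ∧ ∀ k : ℕ, Y ^ δ < (((F D)^[k] n : ℕ) : ℝ)} := by
          intro n hn
          obtain ⟨⟨g1, g2⟩, g3, g4⟩ := hG n hn
          exact ⟨g1, g4, fun k => lt_of_le_of_lt (Real.rpow_le_rpow hY0.le g3 hδ) (g2 k)⟩
        have h4 : (G.card : ℝ) ≤
            ({n : ℕ | 1 ≤ n ∧ (n : ℝ) ≤ 2 * Y ∧ ∀ k : ℕ, Y ^ δ < (((F D)^[k] n : ℕ) : ℝ)}.ncard : ℝ) := by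
          have := Set.ncard_le_ncard hsub hfin
          rw [Set.ncard_coe_finset] at this
          exact_mod_cast this
        refine (h4.trans h3).trans ?_
        have e1 : (Y ^ δ) ^ c = Y ^ (δ * c) := by rw [← Real.rpow_mul hY0.le]
        have e2 : Y / Y ^ (δ * c) = Y ^ (1 - δ * c) := by
          rw [Real.rpow_sub hY0, Real.rpow_one]
        calc C * (2 * Y) / (Y ^ δ) ^ c = 2 * C * (Y / Y ^ (δ * c)) := by
              rw [e1]
              ring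
          _ = 2 * C * Y ^ (1 - δ * c) := by rw [e2]
          _ ≤ 2 * C * Y ^ (1 - c * δ + ε) :=
              mul_le_mul_of_nonneg_left (Real.rpow_le_rpow_of_exponent_le hY (by linarith)) (by positivity))
    obtain ⟨E, h1, h2⟩ := Pool.Agent.H107.ME.dim_family φ (fun n : ℕ => max 1 (n : ℝ)) (fun n => le_max_left _ _)
      hs hσ (J := Unit) (fun _ => {n : ℕ | 1 ≤ n ∧ ∀ k : ℕ, (n : ℝ) ^ δ < (((F D)^[k] n : ℕ) : ℝ)}) (fun _ ε hε => by
        obtain ⟨C', hC'⟩ := hdy ε hε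
        refine ⟨C', fun X hX => ?_⟩
        have heq : {t : ℕ | t ∈ {n : ℕ | 1 ≤ n ∧ ∀ k : ℕ, (n : ℝ) ^ δ < (((F D)^[k] n : ℕ) : ℝ)} ∧
            max 1 (t : ℝ) ≤ X} = {t : ℕ | t ∈ {n : ℕ | 1 ≤ n ∧ ∀ k : ℕ, (n : ℝ) ^ δ < (((F D)^[k] n : ℕ) : ℝ)} ∧
            (t : ℝ) ≤ X} := by
          ext t
          simp only [Set.mem_ofPred_eq, max_le_iff]
          tauto
        rw [heq]
        exact hC' X hX)
    refine ⟨E, h1, fun z hz => (h2 z hz ()).subset ?_⟩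
    rintro n ⟨g1, g2, g3⟩
    refine ⟨⟨g1, g3⟩, ?_⟩
    have h5 : (1 : ℝ) ≤ n := by exact_mod_cast g1
    rw [max_eq_right h5]
    exact g2

end Pool.Agent.Results.MP_5317dd_nt.AllIntegersInWindows
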