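import Pool.Agent.H223.PS.Engine
import Pool.Agent.Results.MP_5317dd_nt.SharpPowerSaving

/-!
# Wiggin's maps in residue classes modulo powers of an arbitrary prime

The starting theorem `SharpPowerSaving` counts the integers `n ≤ X` whose `F_D`-orbit stays above `y`. Here: let `D ≥ 2`;
for every prime `p`, all `0 < θ ≤ 1` and `σ > 0` and all `α ∈ ℤ_p` outside a set of Hausdorff dimension at most
`(1 - c θ) / σ`, for all large `T` EVERY integer `1 ≤ n ≤ T` with `|n - α|_p ≤ T ^ (-σ)` has a term `≤ n ^ θ` in its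
`F_D`-orbit. The dimension is smaller than `1` for `σ > 1 - c θ`, and for `σ < 1` these `n` are all the members up to `T` of
a residue class modulo a power of `p` of size about `T ^ σ`.
-/

set_option autoImplicit false

open MeasureTheory

namespace Pool.Agent.Results.MP_5317dd_nt.PadicClasses

open SharpPowerSaving (F)

/-- The positive integers `n` all of whose iterates under `f` are larger than `n ^ θ`. -/
def High (f : ℕ → ℕ) (θ : ℝ) : Set ℕ := {n | 1 ≤ n ∧ ∀ k : ℕ, (n : ℝ) ^ θ < ((f^[k] n : ℕ) : ℝ)}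

theorem fin_le (S : Set ℕ) (X : ℝ) : {n : ℕ | n ∈ S ∧ (n : ℝ) ≤ X}.Finite := by
  apply (Set.finite_Iic ⌊X⌋₊).subset
  rintro n ⟨-, h⟩
  exact Nat.le_floor h

theorem count_high (f : ℕ → ℕ) {c C θ : ℝ} (hc : 0 < c) (hC : 0 < C) (hθ : 0 < θ)
    (h : ∀ X y : ℝ, 1 ≤ X → 1 ≤ y →
      ({n : ℕ | 1 ≤ n ∧ (n : ℝ) ≤ X ∧ ∀ k : ℕ, y < ((f^[k] n : ℕ) : ℝ)}.ncard : ℝ) ≤ C * X / y ^ c)
    (hcθ : c * θ ≤ 1) {ε : ℝ} (hε : 0 < ε) :
    ∃ K : ℝ, ∀ X : ℝ, 1 ≤ X → {n : ℕ | n ∈ High f θ ∧ (n : ℝ) ≤ X}.Finite ∧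
      ({n : ℕ | n ∈ High f θ ∧ (n : ℝ) ≤ X}.ncard : ℝ) ≤ K * X ^ ((1 - c * θ) + ε) := by
  set s : ℝ := (1 - c * θ) + ε with hs
  have hs0 : 0 < s := by linarith
  have h2s : (2 : ℝ) ^ (-s) < 1 := Real.rpow_lt_one_of_one_lt_of_neg (by norm_num) (by linarith)
  set K : ℝ := max 1 (C * 2 ^ (c * θ) / (1 - 2 ^ (-s))) with hK
  have hK1 : 1 ≤ K := le_max_left _ _
  have hK2 : C * 2 ^ (c * θ) ≤ K * (1 - 2 ^ (-s)) := by
    rw [← div_le_iff₀ (by linarith)]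
    exact le_max_right _ _
  have small : ∀ X : ℝ, 1 ≤ X → X < 2 →
      ({n : ℕ | n ∈ High f θ ∧ (n : ℝ) ≤ X}.ncard : ℝ) ≤ K * X ^ s := by
    intro X hX hX2
    have h1 : {n : ℕ | n ∈ High f θ ∧ (n : ℝ) ≤ X} ⊆ {1} := by
      rintro n ⟨⟨h3, -⟩, h4⟩
      have h5 : (n : ℝ) < 2 := by linarith
      have h6 : n < 2 := by exact_mod_cast h5
      rw [Set.mem_singleton_iff]
      omega
    have h2 : ({n : ℕ | n ∈ High f θ ∧ (n : ℝ) ≤ X}.ncard : ℝ) ≤ 1 := by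
      have := Set.ncard_le_ncard h1 (Set.finite_singleton 1)
      rw [Set.ncard_singleton] at this
      exact_mod_cast this
    have h3 : (1 : ℝ) ≤ X ^ s := Real.one_le_rpow hX hs0.le
    nlinarith
  have main : ∀ m : ℕ, ∀ X : ℝ, 1 ≤ X → X ≤ 2 ^ m →
      ({n : ℕ | n ∈ High f θ ∧ (n : ℝ) ≤ X}.ncard : ℝ) ≤ K * X ^ s := by
    intro m
    induction m with
    | zero =>
      intro X hX hX2
      exact small X hX (by rw [pow_zero] at hX2; linarith)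
    | succ m ih =>
      intro X hX hX2
      rcases lt_or_ge X 2 with h0 | h0
      · exact small X hX h0
      have hXp : 0 < X := by linarith
      have hY1 : 1 ≤ X / 2 := by linarith
      have hY0 : 0 < X / 2 := by linarith
      have ihY := ih (X / 2) hY1 (by rw [pow_succ] at hX2; linarith)
      have hy : 1 ≤ (X / 2) ^ θ := Real.one_le_rpow hY1 hθ.le
      have hb := h X ((X / 2) ^ θ) hX hy
      have hsub : {n : ℕ | n ∈ High f θ ∧ (n : ℝ) ≤ X} ⊆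
          {n : ℕ | n ∈ High f θ ∧ (n : ℝ) ≤ X / 2} ∪
          {n : ℕ | 1 ≤ n ∧ (n : ℝ) ≤ X ∧ ∀ k : ℕ, (X / 2) ^ θ < ((f^[k] n : ℕ) : ℝ)} := by
        rintro n ⟨h3, h4⟩
        rcases le_or_gt (n : ℝ) (X / 2) with h5 | h5
        · exact Or.inl ⟨h3, h5⟩
        · exact Or.inr ⟨h3.1, h4, fun k => (Real.rpow_le_rpow hY0.le h5.le hθ.le).trans_lt (h3.2 k)⟩
      have hfin2 : {n : ℕ | 1 ≤ n ∧ (n : ℝ) ≤ X ∧ ∀ k : ℕ, (X / 2) ^ θ < ((f^[k] n : ℕ) : ℝ)}.Finite := by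
        apply (Set.finite_Iic ⌊X⌋₊).subset
        rintro n ⟨-, h3, -⟩
        exact Nat.le_floor h3
      have h6 : ({n : ℕ | n ∈ High f θ ∧ (n : ℝ) ≤ X}.ncard : ℝ) ≤
          ({n : ℕ | n ∈ High f θ ∧ (n : ℝ) ≤ X / 2}.ncard : ℝ) +
          ({n : ℕ | 1 ≤ n ∧ (n : ℝ) ≤ X ∧ ∀ k : ℕ, (X / 2) ^ θ < ((f^[k] n : ℕ) : ℝ)}.ncard : ℝ) := by
        have h7 := Set.ncard_le_ncard hsub ((fin_le _ _).union hfin2)
        have h8 := h7.trans (Set.ncard_union_le _ _)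
        exact_mod_cast h8
      have e1 : ((X / 2) ^ θ) ^ c = X ^ (c * θ) / 2 ^ (c * θ) := by
        rw [← Real.rpow_mul hY0.le, mul_comm θ c, Real.div_rpow hXp.le (by norm_num)]
      have e2 : C * X / ((X / 2) ^ θ) ^ c = C * 2 ^ (c * θ) * X ^ (1 - c * θ) := by
        rw [e1, Real.rpow_sub hXp, Real.rpow_one]
        have : X ^ (c * θ) ≠ 0 := (Real.rpow_pos_of_pos hXp _).ne'
        have h9 : (2 : ℝ) ^ (c * θ) ≠ 0 := (Real.rpow_pos_of_pos (by norm_num) _).ne'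
        field_simp
      have e3 : X ^ (1 - c * θ) ≤ X ^ s := Real.rpow_le_rpow_of_exponent_le hX (by linarith)
      have e4 : (X / 2) ^ s = X ^ s * 2 ^ (-s) := by
        rw [Real.div_rpow hXp.le (by norm_num), Real.rpow_neg (by norm_num)]
        rfl
      have hC2 : 0 < C * 2 ^ (c * θ) := mul_pos hC (Real.rpow_pos_of_pos (by norm_num) _)
      have hXs : 0 < X ^ s := Real.rpow_pos_of_pos hXp _
      calc ({n : ℕ | n ∈ High f θ ∧ (n : ℝ) ≤ X}.ncard : ℝ) ≤ K * (X ^ s * 2 ^ (-s)) +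
            C * 2 ^ (c * θ) * X ^ (1 - c * θ) := by
            rw [← e4, ← e2]
            exact h6.trans (add_le_add ihY hb)
        _ ≤ K * (X ^ s * 2 ^ (-s)) + C * 2 ^ (c * θ) * X ^ s :=
            add_le_add le_rfl (mul_le_mul_of_nonneg_left e3 hC2.le)
        _ ≤ K * (X ^ s * 2 ^ (-s)) + K * (1 - 2 ^ (-s)) * X ^ s :=
            add_le_add le_rfl (mul_le_mul_of_nonneg_right hK2 hXs.le)
        _ = K * X ^ s := by ring
  refine ⟨K, fun X hX => ⟨fin_le _ _, ?_⟩⟩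
  obtain ⟨m, hm⟩ := pow_unbounded_of_one_lt X (by norm_num : (1 : ℝ) < 2)
  exact main m X hX hm.le

/-- the bound `1 - h / log D` of the starting theorem is smaller than `1` -/
theorem ent_lt (D : ℕ) (hD : 2 ≤ D) :
    1 - Real.qaryEntropy D (Real.log D / Real.log (D + 1)) / Real.log D < 1 := by
  have hD1 : (1 : ℝ) < D := by exact_mod_cast hD
  have h1 : 0 < Real.log D := Real.log_pos hD1
  have h2 : Real.log D < Real.log (D + 1) := Real.log_lt_log (by linarith) (by linarith)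
  have h3 : 0 < Real.qaryEntropy D (Real.log D / Real.log (D + 1)) :=
    Real.qaryEntropy_pos (div_pos h1 (h1.trans h2)) ((div_lt_one (h1.trans h2)).2 h2)
  have h4 : 0 < Real.qaryEntropy D (Real.log D / Real.log (D + 1)) / Real.log D := div_pos h3 h1
  linarith

/-- **Theorem.** Let `D ≥ 2`. There is `0 < c ≤ 1`, larger than `1 - h_D(log D / log (D + 1)) / log D`, such that for every
prime `p`, all `0 < θ ≤ 1` and `σ > 0` there is a set `B ⊆ ℤ_p` of Hausdorff dimension at most `(1 - c θ) / σ` such that for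
all `α ∈ ℤ_p` outside `B` and all large `T`, EVERY integer `1 ≤ n ≤ T` with `|n - α|_p ≤ T ^ (-σ)` has an iterate
`F_D^(k)(n) ≤ n ^ θ`. -/
theorem result (D : ℕ) (hD : 2 ≤ D) :
    ∃ c : ℝ, 0 < c ∧ c ≤ 1 ∧ 1 - Real.qaryEntropy D (Real.log D / Real.log (D + 1)) / Real.log D < c ∧
      ∀ (p : ℕ) [Fact p.Prime] (θ σ : ℝ), 0 < θ → θ ≤ 1 → 0 < σ →
        ∃ B : Set ℤ_[p], dimH B ≤ ENNReal.ofReal ((1 - c * θ) / σ) ∧
          ∀ α : ℤ_[p], α ∉ B → ∃ T₀ : ℝ, ∀ T : ℝ, T₀ ≤ T → ∀ n : ℕ, 1 ≤ n → (n : ℝ) ≤ T →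
            ‖(n : ℤ_[p]) - α‖ ≤ T ^ (-σ) → ∃ k : ℕ, (((F D)^[k] n : ℕ) : ℝ) ≤ (n : ℝ) ^ θ := by
  obtain ⟨c, hc, hc2, C, hC, h⟩ := SharpPowerSaving.result D hD
  refine ⟨min c 1, lt_min hc one_pos, min_le_right _ _, lt_min hc2 (ent_lt D hD), ?_⟩
  intro p _ θ σ hθ hθ1 hσ
  have hc0 : 0 < min c 1 := lt_min hc one_pos
  have hcθ : min c 1 * θ ≤ 1 := by
    have h1 : min c 1 ≤ 1 := min_le_right _ _
    nlinarith
  have hcount := fun (ε : ℝ) (hε : 0 < ε) => count_high (F D) hc0 hC hθ (fun X y hX hy => (h X y hX hy).trans (by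
    have h1 : y ^ (min c 1) ≤ y ^ c := Real.rpow_le_rpow_of_exponent_le hy (min_le_left _ _)
    have h2 : 0 < y ^ (min c 1) := Real.rpow_pos_of_pos (by linarith) _
    exact div_le_div_of_nonneg_left (by positivity) h2 h1)) hcθ hε
  obtain ⟨B, hB, hB'⟩ := Pool.Agent.H223.PS.padic_nat p (fun _ => High (F D) θ)
    (s := 1 - min c 1 * θ) (by linarith) (fun _ ε hε => hcount ε hε) hσ
  refine ⟨B, hB, fun α hα => ?_⟩
  obtain ⟨T₀, hT₀⟩ := hB' α hα 0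
  refine ⟨T₀, fun T hT n hn hnT hnα => ?_⟩
  by_contra hcon
  push_neg at hcon
  exact hT₀ T hT n hnT hnα ⟨hn, hcon⟩

end Pool.Agent.Results.MP_5317dd_nt.PadicClasses
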