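import Pool.Agent.Results.MP_5317dd_nt.AlmostAllD
import Pool.Agent.V11285.SP

/-!
# Wiggin's conjecture for the `D` of sparse sequences

For `c > 1` and all `α > 0` outside a set of Hausdorff dimension less than `1`: for every `M` and all but `o(N)` of the `k ≤ N`,
every `n ≤ M D` descends below `D` under iteration of the map `F_D`, `D = ⌊α k ^ c⌋`.
-/

set_option autoImplicit false

namespace Pool.Agent.Results.MP_5317dd_nt.SparseD

open Filter Finset Topology

/-- Wiggin's map `F_D`. -/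
def F (D : ℕ) (x : ℕ) : ℕ :=
  if x % D = 0 then x / D
  else if x % D = D - 1 then (D + 1) * x + 1
  else (D + 1) * x - x % D

/-- Every `n ≤ M D` descends below `D` under iteration of `F_D`. -/
def Descend (M D : ℕ) : Prop := 2 ≤ D ∧ ∀ n : ℕ, 1 ≤ n → n ≤ M * D → ∃ k : ℕ, (F D)^[k] n < D

open Classical in
/-- **The `D` of sparse sequences.** -/
theorem result (c : ℝ) (hc : 1 < c) :
    ∃ E : Set ℝ, dimH E < 1 ∧ ∀ α : ℝ, 0 < α → α ∉ E → ∀ M : ℕ,
      Tendsto (fun N : ℕ => ((({k : ℕ | 1 ≤ k ∧ k ≤ N ∧ Descend M ⌊α * (k : ℝ) ^ c⌋₊}.ncard : ℕ) : ℝ)) / N)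
        atTop (𝓝 1) := by
  obtain ⟨E, hE, h⟩ := Pool.Agent.V11285.SP.equi c hc (fun M : ℕ => {D | Descend M D})
  refine ⟨E, hE, fun α hα hαE M => ?_⟩
  have h1 := AlmostAllD.result M
  have h2 : Tendsto (fun X : ℕ => (((Ioc 0 X).filter (fun t => t ∈ {D | Descend M D})).card : ℝ) / X) atTop (𝓝 1) := by
    refine h1.congr fun X => ?_
    congr 1
    rw [Nat.cast_inj, ← Set.ncard_coe_finset]
    congr 1
    ext D
    simp only [Finset.coe_filter, Finset.mem_Ioc, Set.mem_ofPred_eq]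
    constructor
    · rintro ⟨q1, q2, q3⟩
      exact ⟨⟨by omega, q2⟩, q1, q3⟩
    · rintro ⟨⟨_, q2⟩, q1, q3⟩
      exact ⟨q1, q2, q3⟩
  have h3 := ((h α hα hαE M).2 1).1 (by convert h2)
  refine h3.congr fun N => ?_
  congr 1
  rw [Nat.cast_inj, ← Set.ncard_coe_finset]
  congr 1
  ext k
  simp only [Finset.coe_filter, Finset.mem_Icc, Set.mem_ofPred_eq]
  tauto

end Pool.Agent.Results.MP_5317dd_nt.SparseD
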