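import Pool.Agent.Y927.GP.M2
import Pool.Agent.V11113.CT.Traj2
import Pool.Agent.V11113.MR.BilFam

/-!
# Wiggin's maps `F_D` and thin families of integers

The families consist of the integers `n = z + u i`, where `z` is an arbitrary integer and the `u i` are the least residues modulo
an arbitrary large integer `m` of a family with exponential sums `O(#s m ^ (-ω))`, with an arbitrarily small `ω > 0` (`Small`).
Examples (part (3)): the values `x · Q y + f₁(x) + f₂(y)` modulo a prime `p` at the pairs of vectors of two arbitrary sets with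
`#A #A' ≥ p ^ (k + 2 ω)`; for `k = 1` this contains the products of the elements of two arbitrary sets with
`#A #A' ≥ p ^ (1 + 2 ω)` and the multiplicative subgroups of order `p ^ (1 / 2 + ω)`. Nothing else is assumed about the family;
it may have as few as about `m ^ (2 ω)` different members.

For every `D ≥ 2` and every nonconstant integer polynomial `f`, for all but a proportion `m ^ (-δ)` of the members `n` with
`v = f n > 0` the orbit of `v` under `F_D` has a term smaller than `v`, and (if `|z| ≤ m ^ B`) even a term `≤ v ^ (1 - η)`.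
-/

set_option autoImplicit false

namespace Pool.Agent.Results.MP_5317dd_nt.ThinFamilies

open Finset Filter Polynomial Pool.Agent.Y927.GP Matrix

/-- Wiggin's map `F_D`. -/
def F (D x : ℕ) : ℕ :=
  if x % D = 0 then x / D
  else if x % D = D - 1 then (D + 1) * x + 1
  else (D + 1) * x - x % D

/-- The exponential sums over the family `u i ∈ ℤ / m`, `i ∈ s`, at all nonzero frequencies are at most
`#s m ^ (-ω)`. (`ZMod.stdAddChar` is the character `e(x / m)`.) -/
def Small (m : ℕ) [NeZero m] (ω : ℝ) {ι : Type} (s : Finset ι) (u : ι → ZMod m) : Prop :=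
  ∀ b : ZMod m, b ≠ 0 → ‖∑ i ∈ s, (ZMod.stdAddChar (b * u i) : ℂ)‖ ≤ s.card * (m : ℝ) ^ (-ω)

open Classical in
/-- The number of the members `i` of the family for which the integer `n i` does not have the property `P`. -/
noncomputable def exceptions {ι : Type} (s : Finset ι) (n : ι → ℤ) (P : ℤ → Prop) : ℕ :=
  (s.filter (fun i => ¬ P (n i))).card

theorem exceptions_le {ι : Type} {s : Finset ι} {n : ι → ℤ} {P : ℤ → Prop} {X : ℝ}
    (h : ∀ A ⊆ s, (∀ i ∈ A, ¬ P (n i)) → (A.card : ℝ) ≤ X) : (exceptions s n P : ℝ) ≤ X := by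
  classical
  unfold exceptions
  exact h _ (filter_subset _ _) (fun S hS => (mem_filter.1 hS).2)

theorem pow_lt (D : ℕ) (hD : 1 ≤ D) : (D + 2) ^ D < (D + 1) ^ (D + 1) := by
  rcases Nat.lt_or_ge D 2 with h | h
  · have : D = 1 := by omega
    subst this; norm_num
  · have hDR : (2 : ℝ) ≤ D := by exact_mod_cast h
    have h1 : (1 + 1 / ((D : ℝ) + 1)) ^ D ≤ Real.exp 1 := by
      have h2 : 1 + 1 / ((D : ℝ) + 1) ≤ Real.exp (1 / ((D : ℝ) + 1)) := by
        have := Real.add_one_le_exp (1 / ((D : ℝ) + 1)); linarith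
      calc (1 + 1 / ((D : ℝ) + 1)) ^ D ≤ Real.exp (1 / ((D : ℝ) + 1)) ^ D :=
            pow_le_pow_left₀ (by positivity) h2 D
        _ = Real.exp (D * (1 / ((D : ℝ) + 1))) := by rw [← Real.exp_nat_mul]
        _ ≤ Real.exp 1 := by
          apply Real.exp_le_exp.2
          rw [mul_one_div, div_le_one (by positivity)]
          linarith
    have h3 : Real.exp 1 < 3 := by
      have := Real.exp_one_lt_d9; linarith
    have h4 : ((D : ℝ) + 2) ^ D < ((D : ℝ) + 1) ^ (D + 1) := by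
      have e : (D : ℝ) + 2 = ((D : ℝ) + 1) * (1 + 1 / ((D : ℝ) + 1)) := by
        field_simp; ring
      rw [e, mul_pow, pow_succ]
      apply mul_lt_mul_of_pos_left _ (by positivity)
      linarith
    exact_mod_cast h4

theorem pow_lt' (D : ℕ) (hD : 2 ≤ D) : (D + 1) ^ (D - 1) < D ^ D := by
  obtain ⟨e, rfl⟩ : ∃ e, D = e + 1 := ⟨D - 1, by omega⟩
  exact pow_lt e (by omega)

/-- offsets -/
def rD (D : ℕ) (j : ℤ) : ℤ := if j = (D : ℤ) - 1 then -1 else j

theorem adm (D : ℕ) : ∀ j : ℤ, 1 ≤ j → j < D → (D : ℤ) ∣ ((D + 1 : ℕ) : ℤ) * j - rD D j := by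
  intro j _ _
  unfold rD
  split_ifs with h
  · rw [h]
    exact ⟨(D : ℤ), by push_cast; ring⟩
  · exact ⟨j, by push_cast; ring⟩

/-- the terms of the orbit of the accelerated map are terms of the orbit of `F_D` -/
theorem F_T (D : ℕ) (hD : 2 ≤ D) (n : ℕ) (hn : 1 ≤ n) :
    ∃ i : ℕ, 1 ≤ (F D)^[i] n ∧ Mo.T D (D + 1) (rD D) (n : ℤ) = (((F D)^[i] n : ℕ) : ℤ) := by
  have hD0 : (0 : ℤ) < D := by exact_mod_cast (by omega : 0 < D)
  obtain ⟨q, j, hj, rfl⟩ : ∃ q j, j < D ∧ n = D * q + j :=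
    ⟨n / D, n % D, Nat.mod_lt _ (by omega), (Nat.div_add_mod n D).symm⟩
  have hmj : (D * q + j) % D = j := by rw [Nat.mul_add_mod, Nat.mod_eq_of_lt hj]
  have hmod : (((D * q + j : ℕ) : ℤ) % (D : ℤ)) = j := by
    rw [← Int.natCast_mod, hmj]
  have hFm : ∀ t : ℕ, F D (D * t) = t := by
    intro t
    unfold F
    rw [if_pos (Nat.mul_mod_right D t), Nat.mul_div_cancel_left _ (by omega)]
  unfold Mo.T
  rw [hmod]
  rcases Nat.eq_zero_or_pos j with h0 | h0
  · subst h0
    refine ⟨1, ?_, ?_⟩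
    · rw [Function.iterate_one, Nat.add_zero, hFm]
      rcases Nat.eq_zero_or_pos q with h | h
      · subst h; simp at hn
      · exact h
    · rw [Function.iterate_one, Nat.add_zero, hFm, if_pos (by simp)]
      push_cast
      rw [Int.mul_ediv_cancel_left _ hD0.ne']
  · rw [if_neg (by omega)]
    by_cases h1 : j = D - 1
    · have hF : F D (D * q + j) = D * (D * (q + 1) + q) := by
        unfold F
        rw [hmj, if_neg (by omega), if_pos h1, h1]
        obtain ⟨d, rfl⟩ : ∃ d, D = d + 1 := ⟨D - 1, by omega⟩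
        simp only [Nat.add_sub_cancel]
        ring
      refine ⟨2, ?_, ?_⟩
      · rw [Function.iterate_succ_apply, Function.iterate_one, hF, hFm]
        have : 1 ≤ D * (q + 1) := Nat.mul_pos (by omega) (by omega)
        omega
      · rw [Function.iterate_succ_apply, Function.iterate_one, hF, hFm]
        have hjz : (j : ℤ) = D - 1 := by omega
        unfold rD
        rw [if_pos hjz]
        push_cast
        rw [hjz]
        have e : ((D : ℤ) + 1) * (D * q + (D - 1)) - -1 = D * (D * (q + 1) + q) := by ring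
        rw [e, Int.mul_ediv_cancel_left _ hD0.ne']
    · have hF : F D (D * q + j) = D * (D * q + j + q) := by
        unfold F
        rw [hmj, if_neg (by omega), if_neg h1]
        have : (D + 1) * (D * q + j) = D * (D * q + j + q) + j := by ring
        omega
      refine ⟨2, ?_, ?_⟩
      · rw [Function.iterate_succ_apply, Function.iterate_one, hF, hFm]
        omega
      · rw [Function.iterate_succ_apply, Function.iterate_one, hF, hFm]
        unfold rD
        rw [if_neg (by omega)]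
        push_cast
        have e : ((D : ℤ) + 1) * (D * q + j) - j = D * (D * q + j + q) := by ring
        rw [e, Int.mul_ediv_cancel_left _ hD0.ne']

theorem F_T_iter (D : ℕ) (hD : 2 ≤ D) (n : ℕ) (hn : 1 ≤ n) (k : ℕ) :
    ∃ i : ℕ, 1 ≤ (F D)^[i] n ∧ (Mo.T D (D + 1) (rD D))^[k] (n : ℤ) = (((F D)^[i] n : ℕ) : ℤ) := by
  induction k with
  | zero => exact ⟨0, hn, rfl⟩
  | succ k ih =>
    obtain ⟨i, h1, h2⟩ := ih
    obtain ⟨j, h3, h4⟩ := F_T D hD _ h1
    rw [← Function.iterate_add_apply] at h3 h4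
    exact ⟨j + i, h3, by rw [Function.iterate_succ_apply', h2, h4]⟩

/-- **Main theorem.** Let `D ≥ 2`, `f` a polynomial of degree at least `1` with integer coefficients and `ω > 0`.

(1) There are `δ > 0` and `m₀` such that for all `m ≥ m₀`, all families with `Small m ω s u` and ALL integers `z` all but at most
`m ^ (-δ) #s` of the integers `n = z + u i` (`0 ≤ u i < m` the least residue) have the following property: if `v = f n` is
positive, the orbit of `v` under `F_D` has a term smaller than `v`.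

(2) For every `B ≥ 1` there are `η, δ > 0` and `m₀` such that for all `m ≥ m₀`, all families with `Small m ω s u` and all integers
`z` with `|z| ≤ m ^ B` all but at most `m ^ (-δ) #s` of the integers `n = z + u i` have the following property: if `v = f n` is
positive, the orbit of `v` under `F_D` has a term `≤ v ^ (1 - η)`.

(3) `Small p ω` holds for every prime `p`, every `k`, all sets `A`, `A'` of vectors modulo `p` with
`#A #A' ≥ p ^ (k + 2 ω)`, every invertible matrix `Q` and arbitrary functions `f₁`, `f₂`, for the family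
`x · Q y + f₁(x) + f₂(y)`, `x ∈ A`, `y ∈ A'`. -/
theorem result (D : ℕ) (hD : 2 ≤ D) (f : ℤ[X]) (hf : 1 ≤ f.natDegree) (ω : ℝ) (hω : 0 < ω) :
    (∃ δ : ℝ, 0 < δ ∧ ∃ m₀ : ℕ, ∀ (m : ℕ) [NeZero m], m₀ ≤ m → ∀ (ι : Type) (s : Finset ι) (u : ι → ZMod m),
      Small m ω s u → ∀ z : ℤ,
      (exceptions s (fun i => z + ((u i).val : ℤ)) (fun n => ∀ v : ℕ, 1 ≤ v → f.eval n = v →
        ∃ k : ℕ, (F D)^[k] v < v) : ℝ) ≤ (m : ℝ) ^ (-δ) * s.card) ∧
    (∀ B : ℝ, 1 ≤ B → ∃ η δ : ℝ, 0 < η ∧ 0 < δ ∧ ∃ m₀ : ℕ, ∀ (m : ℕ) [NeZero m], m₀ ≤ m →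
      ∀ (ι : Type) (s : Finset ι) (u : ι → ZMod m), Small m ω s u → ∀ z : ℤ, |(z : ℝ)| ≤ (m : ℝ) ^ B →
      (exceptions s (fun i => z + ((u i).val : ℤ)) (fun n => ∀ v : ℕ, 1 ≤ v → f.eval n = v →
        ∃ k : ℕ, (((F D)^[k] v : ℕ) : ℝ) ≤ (v : ℝ) ^ (1 - η)) : ℝ) ≤ (m : ℝ) ^ (-δ) * s.card) ∧
    (∀ (p : ℕ) [Fact p.Prime] (k : ℕ) (A A' : Finset (Fin k → ZMod p)) (Q : Matrix (Fin k) (Fin k) (ZMod p)),
      IsUnit Q.det → (p : ℝ) ^ (k + 2 * ω) ≤ A.card * A'.card → ∀ f₁ f₂ : (Fin k → ZMod p) → ZMod p,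
      Small p ω (A ×ˢ A') (fun z => z.1 ⬝ᵥ Q.mulVec z.2 + f₁ z.1 + f₂ z.2)) := by
  have hc : Nat.Coprime (D + 1) D := by simp
  have hr := adm D
  have G := Mo.data (r := rD D) hD hc hr
  have hC := Mo.cls (m := D + 1) (r := rD D) hD
  have hTT : (Pool.Agent.H319R2.Leigh.gm G).T = Mo.T D (D + 1) (rD D) := by rw [Pool.Agent.H319R2.Leigh.gm_T, Mo.T_eq]
  have hD1 : (1 : ℝ) < D := by exact_mod_cast (by omega : 1 < D)
  have hμ : mu (Pool.Agent.H319R2.Leigh.gm G) (Mo.CC D) (fun _ => 1 / (D : ℝ)) < 0 := by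
    rw [Mo.mu_eq hD G]
    have h1 : ((D + 1 : ℕ) : ℝ) ^ (D - 1) < (D : ℝ) ^ D := by exact_mod_cast pow_lt' D hD
    have h2 := Real.log_lt_log (by positivity) h1
    rw [Real.log_pow, Real.log_pow, Nat.cast_sub (by omega), Nat.cast_one] at h2
    have h3 : ((D : ℝ) - 1) / D * Real.log ((D + 1 : ℕ) : ℝ) = ((D : ℝ) - 1) * Real.log ((D + 1 : ℕ) : ℝ) / D := by ring
    rw [h3, sub_neg, div_lt_iff₀ (by linarith), mul_comm (Real.log (D : ℝ))]
    exact h2
  refine ⟨?_, fun B hB => ?_, ?_⟩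
  · obtain ⟨c, c₂, δ, hc0, hc₂, hδ, t₀, h⟩ := Pool.Agent.V11113.CT.drop (Pool.Agent.H319R2.Leigh.gm_fac G)
      (Pool.Agent.H319R2.Leigh.gm_cls G hC) hμ hf hω
    rw [hTT] at h
    refine ⟨δ, hδ, max 2 ⌈Real.exp (max 1 t₀)⌉₊, fun m _ hm ι s u hsum z => ?_⟩
    have hm0 : (0 : ℝ) < m := by exact_mod_cast (by have := (le_max_left _ _).trans hm; omega : 0 < m)
    have ht : max 1 t₀ ≤ Real.log m := by
      rw [Real.le_log_iff_exp_le hm0]
      exact (Nat.le_ceil _).trans (Nat.cast_le.2 ((le_max_right _ _).trans hm))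
    have hconv : (m : ℝ) ^ (-δ) = Real.exp (-(δ * Real.log m)) := by
      rw [Real.rpow_def_of_pos hm0]
      congr 1
      ring
    rw [hconv]
    obtain ⟨t, htdef⟩ : ∃ t, t = Real.log m := ⟨_, rfl⟩
    rw [← htdef] at ht ⊢
    apply exceptions_le
    intro A hA hE
    refine h m t htdef ((le_max_right _ _).trans ht) s u hsum z A hA (fun S hS => ⟨Mo.mem_S hD _, ?_⟩)
    rintro ⟨-, k, -, h2⟩
    apply hE S hS
    intro v hv hfv
    rw [hfv] at h2
    obtain ⟨i, hi1, hi2⟩ := F_T_iter D hD v hv k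
    refine ⟨i, ?_⟩
    rw [hi2] at h2
    have hv0 : (0 : ℝ) < v := by exact_mod_cast hv
    have e1 : |((((F D)^[i] v : ℕ) : ℤ) : ℝ)| = (((F D)^[i] v : ℕ) : ℝ) := by
      rw [Int.cast_natCast]
      exact abs_of_nonneg (Nat.cast_nonneg _)
    have e2 : |((v : ℤ) : ℝ)| = v := by
      rw [Int.cast_natCast]
      exact abs_of_nonneg hv0.le
    rw [e1, e2] at h2
    have h7 : Real.exp (-(c₂ * t)) < 1 := by
      rw [Real.exp_lt_one_iff]
      have h8 : 1 ≤ t := (le_max_left _ _).trans ht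
      have : 0 < c₂ * t := by positivity
      linarith
    have h8 : (((F D)^[i] v : ℕ) : ℝ) < v := lt_of_le_of_lt h2 (mul_lt_of_lt_one_left hv0 h7)
    exact_mod_cast h8
  · obtain ⟨η, δ, hη, hδ, m₀, h⟩ := Pool.Agent.V11113.CT.drop_pow (Pool.Agent.H319R2.Leigh.gm_fac G)
      (Pool.Agent.H319R2.Leigh.gm_cls G hC) hμ hf hω B hB
    rw [hTT] at h
    refine ⟨η, δ, hη, hδ, m₀, fun m _ hm ι s u hs z hz => ?_⟩
    apply exceptions_le
    intro A hA hE
    refine h m hm s u hs z hz A hA (fun S hS => ⟨Mo.mem_S hD _, fun k => ?_⟩)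
    by_contra hcon
    push Not at hcon
    apply hE S hS
    intro v hv hfv
    rw [hfv] at hcon
    obtain ⟨i, hi1, hi2⟩ := F_T_iter D hD v hv k
    refine ⟨i, ?_⟩
    rw [hi2] at hcon
    have e1 : |((((F D)^[i] v : ℕ) : ℤ) : ℝ)| = (((F D)^[i] v : ℕ) : ℝ) := by
      rw [Int.cast_natCast]
      exact abs_of_nonneg (Nat.cast_nonneg _)
    have e2 : |((v : ℤ) : ℝ)| = v := by
      rw [Int.cast_natCast]
      exact abs_of_nonneg (Nat.cast_nonneg _)
    rw [e1, e2] at hcon
    exact hcon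
  · intro p _ k A A' Q hQ hN f₁ f₂ b hb
    exact Pool.Agent.V11113.MR.bil_small ω p k A A' Q hQ f₁ f₂ hN b hb

end Pool.Agent.Results.MP_5317dd_nt.ThinFamilies
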